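import Pool.Agent.X148.OrC3

set_option autoImplicit false

/-!
# `θ*` does not maximise the alternated product of four orientation cocycles

For `n = 4` the value of `|Θ_n|` at the configuration `θ*` is `π ^ 4 / 28`, while there is a
configuration of nine points of the four-torus at which `|Θ_4|` is `π ^ 4 / 15`. So the supremum of
`|Θ_n|` is not attained at `θ*` for `n = 4`.
-/

namespace Pool.Agent.Results.MP_89dd65_gt.FourFactors

open Pool.Agent.X148.OrC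

/-- The supremum norm of `Θ_n`. -/
noncomputable def supNorm (n : ℕ) : ℝ := ⨆ θ : Fin (2 * n + 1) → Fin n → Circle, |Theta n θ|

/-- The exponents of the better configuration. -/
def rows (j : ℕ) : Fin 4 → ℕ :=
  ![[0,6,2,5,1,8,4,7,3].getD j 0, [0,6,4,1,8,3,7,5,2].getD j 0, [0,6,1,2,4,7,8,3,5].getD j 0,
    [0,1,2,3,4,5,6,7,8].getD j 0]

theorem value_star : Theta 4 (thetaStar 4) = Real.pi ^ 4 / 28 := by
  rw [Theta_eval (thetaStar 4) [0,1,2,3,4,5,6,7,8] [0,2,4,6,8,1,3,5,7] [0,3,6,0,3,6,0,3,6]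
    [0,4,8,3,7,2,6,1,5], num_A]
  · push_cast; ring
  all_goals
    intro j
    fin_cases j <;> refine ⟨by norm_num, ?_⟩ <;> unfold thetaStar <;> rw [zeta_pow] <;> simp

theorem value_B : Theta 4 (fun j k => zeta 4 ^ rows j k) = Real.pi ^ 4 / 15 := by
  rw [Theta_eval _ [0,6,2,5,1,8,4,7,3] [0,6,4,1,8,3,7,5,2] [0,6,1,2,4,7,8,3,5]
    [0,1,2,3,4,5,6,7,8], num_B]
  · push_cast; ring
  all_goals
    intro j
    fin_cases j <;> refine ⟨by norm_num, ?_⟩ <;> simp only [zeta_pow] <;> simp [rows]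

/-- For `n = 4` the value of `|Θ_n|` at `θ*` is `π ^ 4 / 28`, while `‖Θ_4‖_∞ ≥ π ^ 4 / 15`; this
value is attained, and `‖Θ_4‖_∞` is not attained at `θ*`. -/
theorem result :
    |Theta 4 (thetaStar 4)| = Real.pi ^ 4 / 28 ∧
    (∃ θ : Fin 9 → Fin 4 → Circle, |Theta 4 θ| = Real.pi ^ 4 / 15) ∧
    Real.pi ^ 4 / 15 ≤ supNorm 4 ∧
    |Theta 4 (thetaStar 4)| < supNorm 4 := by
  have hpi : 0 < Real.pi ^ 4 := pow_pos Real.pi_pos 4
  have h1 : |Theta 4 (thetaStar 4)| = Real.pi ^ 4 / 28 := by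
    rw [value_star, abs_of_pos (by positivity)]
  have h2 : |Theta 4 (fun j k => zeta 4 ^ rows j k)| = Real.pi ^ 4 / 15 := by
    rw [value_B, abs_of_pos (by positivity)]
  have h3 : Real.pi ^ 4 / 15 ≤ supNorm 4 := by
    rw [← h2]
    apply le_ciSup (f := fun θ : Fin (2 * 4 + 1) → Fin 4 → Circle => |Theta 4 θ|)
    exact ⟨Real.pi ^ 4, by rintro _ ⟨θ, rfl⟩; exact abs_Theta_le 4 θ⟩
  refine ⟨h1, ⟨_, h2⟩, h3, ?_⟩
  rw [h1]
  refine lt_of_lt_of_le ?_ h3
  linarith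

end Pool.Agent.Results.MP_89dd65_gt.FourFactors
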